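import Pool.Agent.N658.TP.Stm2

/-! Project TP: imaginary time evolution of local terms. -/

set_option autoImplicit false

noncomputable section

namespace Pool.Agent.N340.TP

open NormedSpace Set

section gen

variable {𝔸 : Type*} [NormedRing 𝔸] [NormedAlgebra ℝ 𝔸] [CompleteSpace 𝔸]

theorem exp_mul_neg (x : 𝔸) : exp x * exp (-x) = 1 := by
  letI : NormedAlgebra ℚ 𝔸 := NormedAlgebra.restrictScalars ℚ ℝ 𝔸
  rw [← exp_add_of_commute (Commute.refl x).neg_right, add_neg_cancel, exp_zero]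

theorem exp_neg_mul (x : 𝔸) : exp (-x) * exp x = 1 := by
  letI : NormedAlgebra ℚ 𝔸 := NormedAlgebra.restrictScalars ℚ ℝ 𝔸
  rw [← exp_add_of_commute (Commute.refl x).neg_left, neg_add_cancel, exp_zero]

/-- the conjugated element -/
def ph (H x : 𝔸) (s : ℝ) : 𝔸 := exp (s • H) * x * exp (-(s • H))

theorem ph_mul (H x y : 𝔸) (s : ℝ) : ph H x s * ph H y s = ph H (x * y) s := by
  unfold ph
  calc exp (s • H) * x * exp (-(s • H)) * (exp (s • H) * y * exp (-(s • H)))
      = exp (s • H) * x * (exp (-(s • H)) * exp (s • H)) * y * exp (-(s • H)) := by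
        simp only [mul_assoc]
    _ = _ := by rw [exp_neg_mul, mul_one]; simp only [mul_assoc]

theorem ph_sub (H x y : 𝔸) (s : ℝ) : ph H x s - ph H y s = ph H (x - y) s := by
  unfold ph
  rw [mul_sub, sub_mul]

theorem ph_sum (H : 𝔸) {ι : Type*} (t : Finset ι) (x : ι → 𝔸) (s : ℝ) :
    ph H (∑ i ∈ t, x i) s = ∑ i ∈ t, ph H (x i) s := by
  unfold ph
  rw [Finset.mul_sum, Finset.sum_mul]

theorem ph_deriv (H x : 𝔸) (s : ℝ) : HasDerivAt (ph H x) (ph H (H * x - x * H) s) s := by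
  have h1 : HasDerivAt (fun u : ℝ => exp (u • H)) (exp (s • H) * H) s :=
    hasDerivAt_exp_smul_const H s
  have h2 : HasDerivAt (fun u : ℝ => exp (-(u • H))) (-H * exp (-(s • H))) s := by
    have h3 := hasDerivAt_exp_smul_const' (-H) s
    simp only [smul_neg] at h3
    exact h3
  have h4 := (h1.mul_const x).mul h2
  refine h4.congr_deriv ?_
  unfold ph
  noncomm_ring

theorem conj_gen (N : ℕ) (adj : Fin N → Fin N → Prop) [∀ b, DecidablePred (adj b)] (K : ℕ)
    (hK : 1 ≤ K) (hdeg : ∀ b, (Finset.univ.filter fun b' => adj b b').card ≤ K) (h : Fin N → 𝔸)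
    (hc : ∀ b b', ¬ adj b b' → h b * h b' = h b' * h b) (J : ℝ) (hJ : 0 < J)
    (hb : ∀ b, ‖h b‖ ≤ J) (s : ℝ) (hs0 : 0 ≤ s) (hs : s ≤ 1 / (16 * K * J)) (b : Fin N) :
    ‖ph (∑ b', h b') (h b) s‖ ≤ 2 * J := by
  obtain ⟨H, hH⟩ : ∃ H, H = ∑ b', h b' := ⟨_, rfl⟩
  rw [← hH]
  have hK1 : (1 : ℝ) ≤ K := by exact_mod_cast hK
  have hcomm : ∀ b, H * h b - h b * H =
      ∑ b' ∈ Finset.univ.filter (fun b' => adj b b'), (h b' * h b - h b * h b') := by
    intro b
    rw [hH, Finset.sum_mul, Finset.mul_sum, ← Finset.sum_sub_distrib, Finset.sum_filter]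
    refine Finset.sum_congr rfl fun b' _ => ?_
    split_ifs with h1
    · rfl
    · rw [hc b b' h1, sub_self]
  have hder : ∀ (b : Fin N) (u : ℝ), ph H (H * h b - h b * H) u =
      ∑ b' ∈ Finset.univ.filter (fun b' => adj b b'),
        (ph H (h b') u * ph H (h b) u - ph H (h b) u * ph H (h b') u) := by
    intro b u
    rw [hcomm b, ph_sum]
    refine Finset.sum_congr rfl fun b' _ => ?_
    rw [ph_mul, ph_mul, ph_sub]
  obtain ⟨Fv, hF⟩ : ∃ Fv : ℝ → (Fin N → 𝔸), Fv = fun u b => ph H (h b) u := ⟨_, rfl⟩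
  obtain ⟨G, hG⟩ : ∃ G : ℝ → (Fin N → 𝔸), G = fun u b => ph H (H * h b - h b * H) u := ⟨_, rfl⟩
  have hFd : ∀ u, HasDerivAt Fv (G u) u := by
    intro u
    rw [hF, hG]
    exact hasDerivAt_pi.2 fun b => ph_deriv H (h b) u
  have hGn : ∀ u, ‖G u‖ ≤ 2 * K * ‖Fv u‖ ^ 2 := by
    intro u
    rw [pi_norm_le_iff_of_nonneg (by positivity)]
    intro b
    have h1 : G u b = ph H (H * h b - h b * H) u := by rw [hG]
    rw [h1, hder]
    have h2 : ∀ b', ‖ph H (h b') u‖ ≤ ‖Fv u‖ := by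
      intro b'
      have : ph H (h b') u = Fv u b' := by rw [hF]
      rw [this]
      exact norm_le_pi_norm (Fv u) b'
    calc ‖∑ b' ∈ Finset.univ.filter (fun b' => adj b b'),
        (ph H (h b') u * ph H (h b) u - ph H (h b) u * ph H (h b') u)‖
        ≤ ∑ b' ∈ Finset.univ.filter (fun b' => adj b b'), 2 * ‖Fv u‖ ^ 2 := by
          refine norm_sum_le_of_le _ fun b' _ => ?_
          refine (norm_sub_le _ _).trans ?_
          have h3 : ‖ph H (h b') u * ph H (h b) u‖ ≤ ‖Fv u‖ * ‖Fv u‖ :=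
            (norm_mul_le _ _).trans (by gcongr <;> exact h2 _)
          have h4 : ‖ph H (h b) u * ph H (h b') u‖ ≤ ‖Fv u‖ * ‖Fv u‖ :=
            (norm_mul_le _ _).trans (by gcongr <;> exact h2 _)
          nlinarith
      _ = ((Finset.univ.filter (fun b' => adj b b')).card : ℝ) * (2 * ‖Fv u‖ ^ 2) := by
          rw [Finset.sum_const, nsmul_eq_mul]
      _ ≤ (K : ℝ) * (2 * ‖Fv u‖ ^ 2) := by
          have : ((Finset.univ.filter (fun b' => adj b b')).card : ℝ) ≤ K := by
            exact_mod_cast hdeg b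
          gcongr
      _ = 2 * K * ‖Fv u‖ ^ 2 := by ring
  have hbd : ∀ x ∈ Icc (0 : ℝ) (1 / (16 * K * J)), J + 16 * K * J ^ 2 * x ≤ 2 * J := by
    intro x hx
    have h1 : x * (16 * K * J) ≤ 1 := by
      have := hx.2
      rwa [le_div_iff₀ (by positivity)] at this
    nlinarith
  have key := image_norm_le_of_norm_deriv_right_lt_deriv_boundary (f := Fv) (f' := G)
    (a := 0) (b := 1 / (16 * K * J)) (B := fun x => J + 16 * K * J ^ 2 * x)
    (B' := fun _ => 16 * K * J ^ 2)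
    (fun x _ => (hFd x).continuousAt.continuousWithinAt) (fun x _ => (hFd x).hasDerivWithinAt)
    (by
      rw [mul_zero, add_zero, pi_norm_le_iff_of_nonneg hJ.le]
      intro b
      rw [hF]
      show ‖exp ((0 : ℝ) • H) * h b * exp (-((0 : ℝ) • H))‖ ≤ J
      rw [zero_smul, neg_zero, exp_zero, one_mul, mul_one]
      exact hb b)
    (fun x => by
      have h1 : HasDerivAt (fun x : ℝ => 16 * K * J ^ 2 * x) (16 * K * J ^ 2 * 1) x :=
        (hasDerivAt_id x).const_mul _
      rw [mul_one] at h1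
      exact h1.const_add J)
    (fun x hx hFx => by
      refine (hGn x).trans_lt ?_
      have h1 : ‖Fv x‖ ≤ 2 * J := by
        rw [hFx]
        exact hbd x ⟨hx.1, hx.2.le⟩
      have h2 : ‖Fv x‖ ^ 2 ≤ (2 * J) ^ 2 := by gcongr
      have h3 : 0 < K * J ^ 2 := by positivity
      nlinarith) ⟨hs0, hs⟩
  have h5 : ‖ph H (h b) s‖ ≤ ‖Fv s‖ := by
    have : ph H (h b) s = Fv s b := by rw [hF]
    rw [this]
    exact norm_le_pi_norm (Fv s) b
  exact h5.trans (key.trans (hbd s ⟨hs0, hs⟩))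

end gen

open Pool.Agent.N658.TP
open scoped Matrix.Norms.L2Operator

open Classical in
theorem conj : StmConj := by
  intro n _ _ N adj K hK hdeg h hc J hJ hb s hs b
  haveI : CompleteSpace (Matrix n n ℂ) := FiniteDimensional.complete ℂ _
  rcases le_total 0 s with hs0 | hs0
  · have h1 := conj_gen N adj K hK (fun b => by convert hdeg b) h hc J hJ hb s hs0
      (by rwa [abs_of_nonneg hs0] at hs) b
    unfold ph at h1
    rw [neg_smul, Complex.coe_smul]
    exact h1
  · have h1 := conj_gen N adj K hK (fun b => by convert hdeg b) (fun b => - h b)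
      (fun b b' hbb => by rw [neg_mul_neg, neg_mul_neg, hc b b' hbb]) J hJ
      (fun b => by rw [norm_neg]; exact hb b) (-s) (by linarith)
      (by rwa [abs_of_nonpos hs0] at hs) b
    unfold ph at h1
    rw [Finset.sum_neg_distrib, smul_neg, neg_smul, neg_neg, mul_neg, neg_mul, norm_neg] at h1
    rw [neg_smul, Complex.coe_smul]
    exact h1

end Pool.Agent.N340.TP
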